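import Pool.Agent.H88.OpenMul3

set_option autoImplicit false

namespace Pool.Agent.Results.MP_9cb16a_an.Counter

open Pool.Agent.H88.OpenMul Pointwise

theorem result :
    ∃ (A : Type) (_ : NormedCommRing A) (_ : NormedAlgebra ℂ A) (_ : CompleteSpace A)
      (_ : NormOneClass A),
      TopologicalSpace.IsTopologicalBasis {s : Set (WeakDual.characterSpace ℂ A) | IsClopen s} ∧
      Dense (Submodule.span ℂ {e : A | IsIdempotentElem e} : Set A) ∧
      (∀ x : A, (∀ χ : A →ₐ[ℂ] ℂ, χ x = 0) → x = 0) ∧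
      (¬ IsOpenMap fun p : A × A => p.1 * p.2) ∧
      ¬ ∀ ε : ℝ, 0 < ε → ∃ δ : ℝ, 0 < δ ∧ ∀ a b : A, ‖a‖ ≤ 1 → ‖b‖ ≤ 1 →
        Metric.ball (a * b) δ ⊆ Metric.ball a ε * Metric.ball b ε := by
  let i1 : NormedCommRing (gen CC) := inferInstance
  let i2 : NormedAlgebra ℂ (gen CC) := Subalgebra.toNormedAlgebra _
  let i3 : NormOneClass (gen CC) := ⟨norm_one (α := BB)⟩
  exact ⟨gen CC, i1, i2, inferInstance, i3, zero_dim (gen_dense CC), gen_dense CC, semisimple,
    not_open core, not_unif core⟩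

end Pool.Agent.Results.MP_9cb16a_an.Counter
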